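import Mathlib
import Pool.Agent.Helper5.QuandleDefs
import Pool.Agent.Helper5.QuandleProof

set_option autoImplicit false

namespace Pool.Agent.Results.MP_6238b5_al.NotSpherical

open Real Pool.Agent.Helper5.Quandle

/-- **Main result.** There are infinitely many pairwise non-isomorphic topological quandle
structures on the two-sphere, none of which is isomorphic to the trivial quandle or to a spherical
quandle. -/
theorem result : ∃ op : ℕ → S2 → S2 → S2,
    (∀ m, IsTopQuandle (op m)) ∧
    (∀ m, ¬ Iso (op m) triv) ∧
    (∀ m (ψ : ℝ), 0 < ψ → ψ < 2 * π → ¬ Iso (op m) (sph ψ)) ∧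
    (∀ m m', m ≠ m' → ¬ Iso (op m) (op m')) :=
  main_result

end Pool.Agent.Results.MP_6238b5_al.NotSpherical
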